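import Mathlib
import Pool.Agent.H520Z.Sel.Defs4
import Pool.Agent.H62Z.KM1

/-!
# Kernels with a prescribed Mellin transform
-/

set_option autoImplicit false

namespace Pool.Agent.H520Z.Sel

open MeasureTheory Set Filter Topology

namespace MelKer

open Complex Pool.Agent.H62Z.KM
open scoped FourierTransform

variable {α : ℝ} {Φ : ℂ → ℂ}

lemma inv_indep (hΦ : DifferentiableOn ℂ Φ {w | α < w.re}) (hd : Decay α Φ) {c c' y : ℝ}
    (hc : α < c) (hc' : α < c') (hy : 0 < y) : mellinInv c Φ y = mellinInv c' Φ y := by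
  have hg : DifferentiableOn ℂ (fun w => (y : ℂ) ^ (-w) * Φ w) {w | α < w.re} :=
    DifferentiableOn.mul (fun w _ => (DifferentiableAt.const_cpow differentiableAt_id.neg
      (Or.inl (ofReal_ne_zero.mpr hy.ne'))).differentiableWithinAt) hΦ
  unfold mellinInv
  simp only [smul_eq_mul]
  congr 1
  rcases le_total c c' with h | h
  · exact shift hg (decay_cpow hd hy) hc h
  · exact (shift hg (decay_cpow hd hy) hc' h).symm

lemma inv_bound (hΦ : DifferentiableOn ℂ Φ {w | α < w.re}) (hd : Decay α Φ) {c b : ℝ}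
    (hc : α < c) (hb : α < b) : ∃ K : ℝ, ∀ y, 0 < y → y ^ b * ‖mellinInv c Φ y‖ ≤ K := by
  refine ⟨1 / (2 * Real.pi) * ∫ t : ℝ, ‖Φ (b + t * I)‖, fun y hy => ?_⟩
  rw [inv_indep hΦ hd hc hb hy, mellinInv, norm_smul, Real.norm_eq_abs,
    abs_of_pos (by positivity), mul_left_comm]
  gcongr
  refine (mul_le_mul_of_nonneg_left (norm_integral_le_integral_norm _) (by positivity)).trans ?_
  rw [← integral_const_mul]
  refine le_of_eq (integral_congr_ae (Eventually.of_forall fun t => ?_))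
  simp only [smul_eq_mul]
  rw [norm_mul, norm_cpow_eq_rpow_re_of_pos hy, ← mul_assoc, ← Real.rpow_add hy]
  simp

lemma line_integrable (hΦ : DifferentiableOn ℂ Φ {w | α < w.re}) (hd : Decay α Φ) {c : ℝ}
    (hc : α < c) : Integrable fun y : ℝ => Φ (c + 2 * Real.pi * y * I) := by
  have h := (vert_integrable hΦ hd hc).comp_mul_left' (R := 2 * Real.pi) (by positivity)
  refine h.congr (Eventually.of_forall fun y => ?_)
  simp only
  push_cast
  rfl

lemma line_continuous (hΦ : DifferentiableOn ℂ Φ {w | α < w.re}) {c : ℝ}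
    (hc : α < c) : Continuous fun y : ℝ => Φ (c + 2 * Real.pi * y * I) :=
  hΦ.continuousOn.comp_continuous (by fun_prop) fun t => by simpa using hc

lemma inv_continuousOn (hΦ : DifferentiableOn ℂ Φ {w | α < w.re}) (hd : Decay α Φ) {c : ℝ}
    (hc : α < c) : ContinuousOn (mellinInv c Φ) (Ioi 0) := by
  have h1 : Continuous (𝓕 fun y : ℝ => Φ (c + 2 * Real.pi * y * I)) :=
    VectorFourier.fourierIntegral_continuous Real.continuous_fourierChar
      (by exact continuous_inner) (line_integrable hΦ hd hc)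
  have h2 : ContinuousOn (fun x : ℝ => (x : ℂ) ^ (-c : ℂ) *
      𝓕 (fun y : ℝ => Φ (c + 2 * Real.pi * y * I)) (Real.log x)) (Ioi 0) := by
    refine ContinuousOn.mul (fun x hx => ?_) (h1.comp_continuousOn
      (Real.continuousOn_log.mono fun x hx => ne_of_gt hx))
    exact (continuousAt_ofReal_cpow_const x _ (Or.inr (ne_of_gt hx))).continuousWithinAt
  refine h2.congr fun x hx => ?_
  rw [mellinInv_eq_fourierInv c Φ hx, Real.fourierInv_eq_fourier_neg, neg_neg, smul_eq_mul]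

lemma inv_hasMellin (hΦ : DifferentiableOn ℂ Φ {w | α < w.re}) (hd : Decay α Φ) {c : ℝ}
    (hc : α < c) {w : ℂ} (hw : α < w.re) : HasMellin (mellinInv c Φ) w (Φ w) := by
  have hloc : LocallyIntegrableOn (mellinInv c Φ) (Ioi 0) :=
    (inv_continuousOn hΦ hd hc).locallyIntegrableOn measurableSet_Ioi
  have htop : ∀ᶠ y : ℝ in atTop, 0 < y := eventually_gt_atTop 0
  have hbot : ∀ᶠ y : ℝ in 𝓝[>] 0, 0 < y := self_mem_nhdsWithin
  have hconv : ∀ s : ℂ, s.re = w.re → MellinConvergent (mellinInv c Φ) s := by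
    intro s hs
    obtain ⟨K1, hK1⟩ := inv_bound hΦ hd hc (show α < (α + w.re) / 2 by linarith)
    obtain ⟨K2, hK2⟩ := inv_bound hΦ hd hc (show α < w.re + 1 by linarith)
    exact mellinConvergent_of_isBigO_rpow hloc (isBigO_of_bound hK2 htop) (by linarith)
      (isBigO_of_bound hK1 hbot) (by linarith)
  refine ⟨hconv w rfl, ?_⟩
  set g : ℝ → ℂ := fun y : ℝ => Φ (w.re + 2 * Real.pi * y * I) with hg
  have hfun : (fun u : ℝ => Real.exp (-w.re * u) • mellinInv c Φ (Real.exp (-u))) = 𝓕⁻ g := by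
    funext u
    rw [inv_indep hΦ hd hc hw (Real.exp_pos _), mellinInv_eq_fourierInv _ _ (Real.exp_pos _),
      Real.log_exp, neg_neg, ← hg]
    have h1 : ((Real.exp (-u) : ℝ) : ℂ) ^ (-(w.re : ℂ)) = ((Real.exp (w.re * u) : ℝ) : ℂ) := by
      rw [← ofReal_neg, ← ofReal_cpow (Real.exp_pos _).le, ← Real.exp_mul]
      congr 2
      ring
    rw [h1, smul_eq_mul, real_smul, ← mul_assoc, ← ofReal_mul, ← Real.exp_add]
    simp
  have hint : Integrable (𝓕⁻ g) := by
    have hf := hconv (w.re : ℂ) (by simp)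
    have himg : (Real.exp ∘ Neg.neg) '' univ = Ioi 0 := by
      rw [Set.image_comp, Set.image_univ_of_surjective neg_surjective, Set.image_univ,
        Real.range_exp]
    have hder : ∀ x ∈ (univ : Set ℝ),
        HasDerivWithinAt (Real.exp ∘ Neg.neg) (-Real.exp (-x)) univ x :=
      fun x _ => mul_neg_one (Real.exp (-x)) ▸
        ((Real.hasDerivAt_exp (-x)).comp x (hasDerivAt_neg x)).hasDerivWithinAt
    have hinj : univ.InjOn (Real.exp ∘ Neg.neg : ℝ → ℝ) :=
      Real.exp_injective.injOn.comp neg_injective.injOn (univ.mapsTo_univ _)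
    rw [MellinConvergent, ← himg, integrableOn_image_iff_integrableOn_abs_deriv_smul
      MeasurableSet.univ hder hinj, integrableOn_univ] at hf
    rw [← hfun]
    refine hf.congr (Eventually.of_forall fun u => ?_)
    simp only [Function.comp_apply, abs_neg, Real.abs_exp]
    have h1 : ((Real.exp (-u) : ℝ) : ℂ) ^ ((w.re : ℂ) - 1) =
        ((Real.exp (-u * (w.re - 1)) : ℝ) : ℂ) := by
      rw [Real.exp_mul, ofReal_cpow (Real.exp_pos _).le]
      push_cast
      rfl
    rw [h1, smul_eq_mul, real_smul, real_smul, ← mul_assoc, ← ofReal_mul, ← Real.exp_add]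
    congr 3
    ring
  have hint' : Integrable (𝓕 g) := by
    have h := hint.comp_neg
    refine h.congr (Eventually.of_forall fun u => ?_)
    simp only
    rw [Real.fourierInv_eq_fourier_neg, neg_neg]
  rw [mellin_eq_fourier, hfun,
    (line_continuous hΦ hw).fourier_fourierInv_eq (line_integrable hΦ hd hw) hint']
  have hpi : (Real.pi : ℂ) ≠ 0 := ofReal_ne_zero.mpr Real.pi_ne_zero
  push_cast
  rw [mul_div_cancel₀ _ (mul_ne_zero two_ne_zero hpi), re_add_im]

lemma inv_real (hconj : ∀ w : ℂ, α < w.re → Φ (starRingEnd ℂ w) = starRingEnd ℂ (Φ w)) {c y : ℝ}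
    (hc : α < c) (hy : 0 < y) : (((mellinInv c Φ y).re : ℝ) : ℂ) = mellinInv c Φ y := by
  rw [← conj_eq_iff_re]
  unfold mellinInv
  rw [real_smul, map_mul, conj_ofReal, ← integral_conj, ← integral_neg_eq_self]
  congr 1
  refine integral_congr_ae (Eventually.of_forall fun t => ?_)
  simp only [smul_eq_mul, map_mul]
  have h1 : starRingEnd ℂ ((c : ℂ) + ((-t : ℝ) : ℂ) * I) = c + t * I := by
    simp
  rw [← hconj _ (by simpa using hc), h1]
  congr 1
  have h2 := cpow_conj (y : ℂ) (-((c : ℂ) + ((-t : ℝ) : ℂ) * I))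
    (by rw [arg_ofReal_of_nonneg hy.le]; exact Real.pi_ne_zero.symm)
  rw [conj_ofReal, map_neg, h1] at h2
  exact h2.symm

lemma inv_deriv (hΦ : DifferentiableOn ℂ Φ {w | α < w.re}) (hd : Decay α Φ)
    (hd' : Decay α fun w => -(w * Φ w)) {c y : ℝ} (hc : α < c) (hy : 0 < y) :
    HasDerivAt (mellinInv c Φ) (mellinInv c (fun w => -(w * Φ w)) y / y) y := by
  have hΦ' : DifferentiableOn ℂ (fun w => -(w * Φ w)) {w | α < w.re} :=
    (differentiableOn_id.mul hΦ).neg
  have hcont : Continuous fun t : ℝ => Φ (c + t * I) :=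
    hΦ.continuousOn.comp_continuous (by fun_prop) fun t => by simpa using hc
  have hcp : ∀ (x : ℝ), 0 < x → ∀ d : ℂ, Continuous fun t : ℝ => (x : ℂ) ^ (-(c + t * I) - d) :=
    fun x hx d => Continuous.const_cpow (by fun_prop) (Or.inl (ofReal_ne_zero.mpr hx.ne'))
  have hg : DifferentiableOn ℂ (fun w => (y : ℂ) ^ (-w) * Φ w) {w | α < w.re} :=
    DifferentiableOn.mul (fun w _ => (DifferentiableAt.const_cpow differentiableAt_id.neg
      (Or.inl (ofReal_ne_zero.mpr hy.ne'))).differentiableWithinAt) hΦ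
  have hs : Ioo (y / 2) (2 * y) ∈ 𝓝 y := Ioo_mem_nhds (by linarith) (by linarith)
  have key := hasDerivAt_integral_of_dominated_loc_of_deriv_le (μ := volume)
    (F := fun (x : ℝ) (t : ℝ) => (x : ℂ) ^ (-((c : ℂ) + t * I)) * Φ (c + t * I))
    (F' := fun (x : ℝ) (t : ℝ) => (x : ℂ) ^ (-((c : ℂ) + t * I) - 1) *
      -((c + t * I) * Φ (c + t * I)))
    (bound := fun t : ℝ => ((y / 2) ^ (-c - 1) + (2 * y) ^ (-c - 1)) *
      ‖-((c + t * I) * Φ (c + t * I))‖) hs ?_ ?_ ?_ ?_ ?_ ?_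
  · have h2 := key.2.const_smul (1 / (2 * Real.pi) : ℝ)
    refine HasDerivAt.congr_deriv h2 (Eq.symm ?_)
    unfold mellinInv
    rw [real_smul, real_smul, mul_div_assoc, ← integral_div]
    congr 1
    refine integral_congr_ae (Eventually.of_forall fun t => ?_)
    simp only [smul_eq_mul]
    rw [cpow_sub _ _ (ofReal_ne_zero.mpr hy.ne'), cpow_one]
    ring
  · filter_upwards [Ioi_mem_nhds hy] with x hx
    have := (hcp x hx 0).mul hcont
    simp only [sub_zero] at this
    exact this.aestronglyMeasurable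
  · exact vert_integrable hg (decay_cpow hd hy) hc
  · exact ((hcp y hy 1).mul ((Continuous.mul (by fun_prop) hcont).neg)).aestronglyMeasurable
  · refine Eventually.of_forall fun t x hx => ?_
    have hx0 : 0 < x := by linarith [hx.1]
    rw [norm_mul, norm_cpow_eq_rpow_re_of_pos hx0]
    refine mul_le_mul_of_nonneg_right ?_ (norm_nonneg _)
    have e : (-((c : ℂ) + t * I) - 1).re = -c - 1 := by simp
    rw [e]
    rcases le_total (-c - 1) 0 with h | h
    · have := Real.rpow_le_rpow_of_nonpos (show 0 < y / 2 by linarith) hx.1.le h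
      have h2 : 0 ≤ (2 * y) ^ (-c - 1) := by positivity
      linarith
    · have := Real.rpow_le_rpow hx0.le hx.2.le h
      have h2 : 0 ≤ (y / 2) ^ (-c - 1) := by positivity
      linarith
  · exact (vert_integrable hΦ' hd' hc).norm.const_mul _
  · refine Eventually.of_forall fun t x hx => ?_
    have hx0 : 0 < x := by linarith [hx.1]
    have h1 : HasDerivAt (fun z : ℂ => z ^ (-((c : ℂ) + t * I)))
        (-((c : ℂ) + t * I) * (x : ℂ) ^ (-((c : ℂ) + t * I) - 1) * 1) (x : ℂ) :=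
      (hasDerivAt_id (x : ℂ)).cpow_const (ofReal_mem_slitPlane.mpr hx0)
    have h2 := h1.comp_ofReal.mul_const (Φ (c + t * I))
    refine HasDerivAt.congr_deriv h2 ?_
    ring

lemma hasMellin_congr {f g : ℝ → ℂ} {w m : ℂ} (h : ∀ y, 0 < y → f y = g y)
    (hg : HasMellin g w m) : HasMellin f w m := by
  refine ⟨?_, ?_⟩
  · refine (integrableOn_congr_fun (fun y hy => ?_) measurableSet_Ioi).mpr hg.1
    simp only [h y hy]
  · rw [← hg.2]
    refine setIntegral_congr_fun measurableSet_Ioi fun y hy => ?_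
    simp only [h y hy]

end MelKer

open MelKer Pool.Agent.H62Z.KM in
theorem kernel_of_mellin (b0 : ℝ) (Ψ : ℂ → ℂ) (hΨ : DifferentiableOn ℂ Ψ {w : ℂ | b0 < w.re})
    (hconj : ∀ w : ℂ, b0 < w.re → Ψ (starRingEnd ℂ w) = starRingEnd ℂ (Ψ w))
    (hdec : ∀ a b : ℝ, b0 < a → ∃ K : ℝ, ∀ w : ℂ, a ≤ w.re → w.re ≤ b →
      ‖Ψ w‖ ≤ K / (1 + |w.im|) ^ 3) :
    ∃ E E' : ℝ → ℝ, (∀ y, 0 < y → HasDerivAt E (E' y) y) ∧ ContinuousOn E' (Ioi 0) ∧
      (∀ b : ℝ, b0 < b → ∃ K : ℝ, ∀ y, 0 < y → y ^ b * |E y| ≤ K) ∧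
      ∀ w : ℂ, b0 < w.re → HasMellin (fun y => (E y : ℂ)) w (Ψ w) ∧
        HasMellin (fun y => ((y * E' y : ℝ) : ℂ)) w (-(w * Ψ w)) := by
  have hgen : ∀ a b : ℝ, b0 < a → ∃ K : ℝ, 0 ≤ K ∧ ∀ w : ℂ, a ≤ w.re → w.re ≤ b →
      (1 + |w.im|) * ‖Ψ w‖ ≤ K * (1 + w.im ^ 2)⁻¹ := by
    intro a b ha
    obtain ⟨K, hK⟩ := hdec a b ha
    refine ⟨|K|, abs_nonneg _, fun w h1 h2 => ?_⟩
    have h3 := hK w h1 h2
    have h4 : 0 < 1 + |w.im| := by positivity
    rw [le_div_iff₀ (by positivity)] at h3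
    rw [← div_eq_mul_inv, le_div_iff₀ (by positivity)]
    have h5 : 1 + w.im ^ 2 ≤ (1 + |w.im|) ^ 2 := by
      nlinarith [sq_abs w.im, abs_nonneg w.im]
    have h6 := mul_le_mul_of_nonneg_left h5 (show 0 ≤ (1 + |w.im|) * ‖Ψ w‖ by positivity)
    have h7 := le_abs_self K
    nlinarith
  have hd : Decay b0 Ψ := by
    intro a b ha
    obtain ⟨K, _, hK⟩ := hgen a b ha
    refine ⟨K, fun w h1 h2 => le_trans ?_ (hK w h1 h2)⟩
    exact le_mul_of_one_le_left (norm_nonneg _) (by linarith [abs_nonneg w.im])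
  have hd' : Decay b0 fun w => -(w * Ψ w) := by
    intro a b ha
    obtain ⟨K, _, hK⟩ := hgen a b ha
    refine ⟨(|a| + |b| + 1) * K, fun w h1 h2 => ?_⟩
    have h3 : ‖w‖ ≤ (|a| + |b| + 1) * (1 + |w.im|) := by
      have h4 := Complex.norm_le_abs_re_add_abs_im w
      have h5 : |w.re| ≤ |a| + |b| := by
        rw [abs_le]
        constructor
        · linarith [neg_abs_le a, abs_nonneg b]
        · linarith [le_abs_self b, abs_nonneg a]
      nlinarith [abs_nonneg a, abs_nonneg b, abs_nonneg w.im]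
    rw [norm_neg, norm_mul, mul_assoc]
    refine (mul_le_mul_of_nonneg_right h3 (norm_nonneg _)).trans ?_
    rw [mul_assoc]
    exact mul_le_mul_of_nonneg_left (hK w h1 h2) (by positivity)
  have hΨ' : DifferentiableOn ℂ (fun w => -(w * Ψ w)) {w : ℂ | b0 < w.re} :=
    (differentiableOn_id.mul hΨ).neg
  have hconj' : ∀ w : ℂ, b0 < w.re → -(starRingEnd ℂ w * Ψ (starRingEnd ℂ w)) =
      starRingEnd ℂ (-(w * Ψ w)) := by
    intro w hw
    rw [hconj w hw, map_neg, map_mul]
  have hc : b0 < b0 + 1 := by linarith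
  refine ⟨fun y => (mellinInv (b0 + 1) Ψ y).re,
    fun y => (mellinInv (b0 + 1) (fun w => -(w * Ψ w)) y).re / y, fun y hy => ?_, ?_, ?_, ?_⟩
  · have h := Complex.reCLM.hasFDerivAt.comp_hasDerivAt y (inv_deriv hΨ hd hd' hc hy)
    refine HasDerivAt.congr_deriv h ?_
    simp [Complex.div_ofReal_re]
  · exact (Complex.continuous_re.comp_continuousOn (inv_continuousOn hΨ' hd' hc)).div
      continuousOn_id fun y hy => ne_of_gt hy
  · intro b hb
    obtain ⟨K, hK⟩ := inv_bound hΨ hd hc hb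
    refine ⟨K, fun y hy => le_trans ?_ (hK y hy)⟩
    exact mul_le_mul_of_nonneg_left (Complex.abs_re_le_norm _) (by positivity)
  · intro w hw
    refine ⟨hasMellin_congr (fun y hy => inv_real hconj hc hy) (inv_hasMellin hΨ hd hc hw),
      hasMellin_congr (fun y hy => ?_) (inv_hasMellin hΨ' hd' hc hw)⟩
    rw [mul_div_cancel₀ _ hy.ne']
    exact inv_real (Φ := fun w => -(w * Ψ w)) hconj' hc hy

end Pool.Agent.H520Z.Sel
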